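import Mathlib
import Pool.Agent.Lib.MP_360c0a_pr.Defs
import Pool.Agent.Lib.MP_360c0a_pr.Solution
import Pool.Agent.Lib.MP_360c0a_pr.Existence

/-!
# Eventual monotonicity in time of the parabolic Anderson model on the integers

Let `ξ` be any family of random variables with `a ≤ ξ(x) ≤ b` almost surely for every `x`,
where `0 < a`.  Almost surely the parabolic Anderson model with potential `ξ` has exactly one
solution for every bounded initial condition, and for every site `x` there is a finite time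
`T = T(ξ, x)` such that, for every nonnegative nonzero initial condition `u₀`, the map
`t ↦ u(t, x)` is strictly increasing on `[T, ∞)`.
-/

namespace Pool.Agent.Results.MP_360c0a_pr.EventualMonotonicity

open MeasureTheory Pool.Agent.Lib.MP_360c0a_pr

theorem result {Ω : Type*} [MeasurableSpace Ω] (P : Measure Ω) [IsProbabilityMeasure P]
    (ξ : ℤ → Ω → ℝ) (a b : ℝ) (ha : 0 < a)
    (hξ : ∀ x, ∀ᵐ ω ∂P, a ≤ ξ x ω ∧ ξ x ω ≤ b) :
    ∀ᵐ ω ∂P,
      (∀ u₀ : ℤ → ℝ, (∃ C, ∀ x, |u₀ x| ≤ C) →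
        ∃ u, IsPAMSolution (fun x => ξ x ω) u₀ u ∧
          ∀ v, IsPAMSolution (fun x => ξ x ω) u₀ v → ∀ t, 0 ≤ t → ∀ x, v t x = u t x) ∧
      ∀ x : ℤ, ∃ T : ℝ, 0 ≤ T ∧ ∀ (u₀ : ℤ → ℝ) (u : ℝ → ℤ → ℝ),
        (∀ y, 0 ≤ u₀ y) → (∃ y, 0 < u₀ y) → IsPAMSolution (fun x => ξ x ω) u₀ u →
          StrictMonoOn (fun t => u t x) (Set.Ici T) := by
  filter_upwards [ae_all_iff.mpr hξ] with ω hω
  refine ⟨fun u₀ hu₀ => ?_, fun x => exists_time_strictMonoOn ha hω x⟩
  obtain ⟨C, hC⟩ := hu₀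
  obtain ⟨u, hu⟩ := exists_isPAMSolution (fun x => ξ x ω) b (fun x => by
    rw [abs_of_nonneg (le_trans ha.le (hω x).1)]
    exact (hω x).2) u₀ C hC
  exact ⟨u, hu, fun v hv t ht x => hv.unique ha hω hu ht x⟩

end Pool.Agent.Results.MP_360c0a_pr.EventualMonotonicity
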